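import Pool.Agent.H12.MV.PartialSums

/-!
# Partial-sum inequalities for the chromatic h-polynomial

For a graph `G` on `d ≥ 1` vertices let `h_G(z) = (1 - z)^(d+1) ∑ χ_G(n) z^n`.  We prove
`h_d + ... + h_{d-i+1} ≥ h_0 + ... + h_i` for all `1 ≤ i ≤ d/2`.

Proof idea.  Write `S_i(G)` for the difference of the two sides.  Deletion-contraction gives
`h_G = h_{G-e} - (1 - z) h_{G/e}`, whence
`S_i(G) = S_i(G-e) + h_{d-i}(G/e) + h_i(G/e) ≥ S_i(G-e)`, since the `h`-coefficients are
nonnegative.  For the edgeless graph, `S_i = 0` by the symmetry of the Eulerian numbers.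
Nonnegativity (and the degree bound) is proved by sorting: the proper colourings inducing a fixed
acyclic orientation are split according to the sorting permutation, with ties broken by a
labelling that reverses the orientation.
-/

namespace Pool.Agent.Results.MP_f4be1e_co.PartialSums

open PowerSeries

/-- **Theorem.** For every graph `G` on `d ≥ 1` vertices, the polynomial `h_G` defined by
`∑ χ_G(n) z^n = h_G(z) / (1 - z)^(d+1)` satisfies
`h_d + ... + h_{d-i+1} - (h_0 + ... + h_i) ≥ 0` for all `1 ≤ i ≤ ⌊d/2⌋`.
Here `χ_G(n) = Nat.card (G.Coloring (Fin n))` is the number of proper `n`-colourings. -/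
theorem result {V : Type*} [Fintype V] [Nonempty V] (G : SimpleGraph V) :
    ∃ h : Polynomial ℤ,
      (h : PowerSeries ℤ) =
        PowerSeries.mk (fun n => (Nat.card (G.Coloring (Fin n)) : ℤ)) *
          (1 - PowerSeries.X) ^ (Fintype.card V + 1) ∧
      ∀ i : ℕ, 1 ≤ i → i ≤ Fintype.card V / 2 →
        0 ≤ ∑ j ∈ Finset.Icc (Fintype.card V - i + 1) (Fintype.card V), h.coeff j -
          ∑ j ∈ Finset.range (i + 1), h.coeff j :=
  Pool.H12.MV.PartialSums.result G

end Pool.Agent.Results.MP_f4be1e_co.PartialSums
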